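import Pool.Agent.helper3.T5.SpecA

set_option autoImplicit false

/-! T5 (MP_16912e_nt): row AELE, the elements attached to a tuple. -/

namespace Pool.Agent.T5

open Finset NumberField Pool.Agent.helper3.FT Pool.Agent.helper47.RA

theorem AELE_ex {K : Type} [Field K] [NumberField K] (Q : QF K) (A B N : ℤ)
    (h : A ^ 2 - Q.D * B ^ 2 = 4 * N) :
    ∃ x : 𝓞 K, Q.Y x = B ∧ x + Q.cj x = (A : 𝓞 K) ∧ x * Q.cj x = (N : 𝓞 K) := by
  have hev : (2 : ℤ) ∣ A - Q.t * B := by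
    have h1 : (2 : ℤ) ∣ (A - Q.t * B) * (A + Q.t * B) := by
      refine ⟨2 * N + 2 * Q.k * B ^ 2, ?_⟩
      have h2 := Q.t_sq
      have h3 := Q.hk
      rw [h3] at h
      linear_combination h - B ^ 2 * h2
    rcases Int.prime_two.dvd_or_dvd h1 with h2 | h2
    · exact h2
    · have e : A - Q.t * B = A + Q.t * B - 2 * (Q.t * B) := by ring
      rw [e]
      exact dvd_sub h2 (dvd_mul_right _ _)
  obtain ⟨x1, hx1⟩ := hev
  refine ⟨x1 + B * Q.ω, Q.Y_spec _ _, ?_, ?_⟩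
  · rw [Q.cj_form]
    have h1 : (A : 𝓞 K) = ((2 * x1 + Q.t * B : ℤ) : 𝓞 K) := by
      congr 1
      linarith
    rw [h1]
    push_cast
    ring
  · rw [Q.norm_form]
    congr 1
    have h2 := Q.t_sq
    have h3 := Q.hk
    have h4 : (4 : ℤ) * (x1 ^ 2 + Q.t * x1 * B - Q.k * B ^ 2) = 4 * N := by
      rw [← h, h3]
      have hA : A = 2 * x1 + Q.t * B := by linarith
      rw [hA]
      linear_combination (-(B ^ 2)) * h2
    linarith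

theorem AELE_Ymul {K : Type} [Field K] [NumberField K] (Q : QF K) (x x' : 𝓞 K) (T T' : ℤ)
    (h : x + Q.cj x = (T : 𝓞 K)) (h' : x' + Q.cj x' = (T' : 𝓞 K)) :
    2 * Q.Y (x * x') = T * Q.Y x' + T' * Q.Y x := by
  obtain ⟨a, ha⟩ := Q.exists_re x
  obtain ⟨b, hb⟩ := Q.exists_re x'
  generalize Q.Y x = y at ha ⊢
  generalize Q.Y x' = y' at hb ⊢
  have h1 : T = 2 * a + Q.t * y := by
    apply QF.int_inj (K := K)
    rw [← h, ha, Q.cj_form]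
    push_cast
    ring
  have h2 : T' = 2 * b + Q.t * y' := by
    apply QF.int_inj (K := K)
    rw [← h', hb, Q.cj_form]
    push_cast
    ring
  have h3 : Q.Y (x * x') = a * y' + b * y + Q.t * y * y' := by
    apply Q.Y_eq (x := a * b + Q.k * y * y')
    rw [ha, hb]
    push_cast
    linear_combination (y : 𝓞 K) * y' * Q.hω
  rw [h3, h1, h2]
  ring

theorem AELE (hAIST : AIST_stmt) (hADVL : ADVL_stmt) : AELE_stmt := by
  intro K _ _ Q f t hT hf hdis hZ hL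
  obtain ⟨i1, i2, i3, ⟨A, C, a1, a2, -, a4, a5⟩, -, -⟩ := hAIST t hT
  have hn1 := hT.n1
  have hk1 := hT.k1
  generalize hΛe : lam t = Λ at *
  generalize hRe : RR t = R at *
  generalize hRe' : RR' t = R' at *
  obtain ⟨⟨n, k⟩, m, g, Z⟩ := t
  dsimp only at *
  rw [hdis] at a4 a5
  have hn0 : (n : ℤ) ≠ 0 := by exact_mod_cast (by omega : n ≠ 0)
  have hk0 : (k : ℤ) ≠ 0 := by exact_mod_cast (by omega : k ≠ 0)
  have hf0 : (f : ℤ) ≠ 0 := by exact_mod_cast (by omega : f ≠ 0)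
  obtain ⟨α, yα, tα, nα⟩ := AELE_ex Q A (f * n) (Z ^ 2 * Λ) (by linear_combination -a4)
  obtain ⟨γ, yγ, tγ, nγ⟩ := AELE_ex Q C (f * k) (Z * Λ ^ 2) (by linear_combination -a5)
  have tγ' : Q.cj γ + Q.cj (Q.cj γ) = (C : 𝓞 K) := by
    rw [Q.cj_cj, ← tγ]
    ring
  have yγ' : Q.Y (Q.cj γ) = -(f * k) := by rw [Q.Y_cj, yγ]
  have hΛK : (Λ : 𝓞 K) ≠ 0 := A3_cast_ne hL
  have hZK : (Z : 𝓞 K) ≠ 0 := A3_cast_ne hZ
  push_cast at nα nγ
  -- u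
  have Y1 : Q.Y (α * Q.cj γ) = Λ * (f * m) := by
    have h := AELE_Ymul Q α (Q.cj γ) A C tα tγ'
    rw [yα, yγ'] at h
    apply mul_left_cancel₀ (two_ne_zero (α := ℤ))
    linear_combination h - (f : ℤ) * a1 + (f : ℤ) * a2
  have N1 : α * Q.cj γ * Q.cj (α * Q.cj γ) = ((Λ ^ 2 * (Z ^ 3 * Λ) : ℤ) : 𝓞 K) := by
    rw [map_mul, Q.cj_cj]
    push_cast
    linear_combination γ * Q.cj γ * nα + (Z : 𝓞 K) ^ 2 * Λ * nγ
  obtain ⟨u, hu⟩ := hADVL K Q (α * Q.cj γ) Λ (Z ^ 3 * Λ) hL ⟨_, Y1⟩ N1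
  have yu : Q.Y u = f * m := by
    rw [hu, Q.Y_int_mul] at Y1
    exact mul_left_cancel₀ hL Y1
  have nu : u * Q.cj u = ((Z ^ 3 * Λ : ℤ) : 𝓞 K) := by
    rw [hu, map_mul, Q.cj_int] at N1
    apply mul_left_cancel₀ (pow_ne_zero 2 hΛK)
    push_cast at N1 ⊢
    linear_combination N1
  have uα' : u * Q.cj α = ((Z ^ 2 : ℤ) : 𝓞 K) * Q.cj γ := by
    apply mul_left_cancel₀ hΛK
    push_cast
    linear_combination (-Q.cj α) * hu + Q.cj γ * nα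
  -- v
  have Y2 : Q.Y (α * γ) = Z * (f * g) := by
    have h := AELE_Ymul Q α γ A C tα tγ
    rw [yα, yγ] at h
    apply mul_left_cancel₀ (two_ne_zero (α := ℤ))
    linear_combination h + (f : ℤ) * a1 + (f : ℤ) * a2
  have N2 : α * γ * Q.cj (α * γ) = ((Z ^ 2 * (Z * Λ ^ 3) : ℤ) : 𝓞 K) := by
    rw [map_mul]
    push_cast
    linear_combination γ * Q.cj γ * nα + (Z : 𝓞 K) ^ 2 * Λ * nγ
  obtain ⟨v, hv⟩ := hADVL K Q (α * γ) Z (Z * Λ ^ 3) hZ ⟨_, Y2⟩ N2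
  have yv : Q.Y v = f * g := by
    rw [hv, Q.Y_int_mul] at Y2
    exact mul_left_cancel₀ hZ Y2
  have nv : v * Q.cj v = ((Z * Λ ^ 3 : ℤ) : 𝓞 K) := by
    rw [hv, map_mul, Q.cj_int] at N2
    apply mul_left_cancel₀ (pow_ne_zero 2 hZK)
    push_cast at N2 ⊢
    linear_combination N2
  have vγ' : v * Q.cj γ = ((Λ ^ 2 : ℤ) : 𝓞 K) * α := by
    apply mul_left_cancel₀ hZK
    push_cast
    linear_combination (-Q.cj γ) * hv + α * nγ
  -- θ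
  have Y3 : Q.Y (u * α) = Λ * (f * R) := by
    have h := Q.Y_mul_Y u α (Z ^ 3 * Λ) (Z ^ 2 * Λ) nu (by rw [nα]; push_cast; ring)
    rw [uα', Q.Y_int_mul, yγ', yu, yα] at h
    apply mul_left_cancel₀ (mul_ne_zero (pow_ne_zero 2 hZ) (mul_ne_zero hf0 hk0))
    linear_combination -h - Z ^ 2 * Λ * f ^ 2 * i2
  have N3 : u * α * Q.cj (u * α) = ((Λ ^ 2 * Z ^ 5 : ℤ) : 𝓞 K) := by
    rw [map_mul]
    push_cast at nu ⊢
    linear_combination α * Q.cj α * nu + (Z : 𝓞 K) ^ 3 * Λ * nα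
  obtain ⟨θ, hθ⟩ := hADVL K Q (u * α) Λ (Z ^ 5) hL ⟨_, Y3⟩ N3
  have yθ : Q.Y θ = f * R := by
    rw [hθ, Q.Y_int_mul] at Y3
    exact mul_left_cancel₀ hL Y3
  -- θ'
  have Y4 : Q.Y (v * γ) = Z * (f * R') := by
    have h := Q.Y_mul_Y v γ (Z * Λ ^ 3) (Z * Λ ^ 2) nv (by rw [nγ]; push_cast; ring)
    rw [vγ', Q.Y_int_mul, yγ, yv, yα] at h
    apply mul_left_cancel₀ (mul_ne_zero (pow_ne_zero 2 hL) (mul_ne_zero hf0 hn0))
    linear_combination h - Z * Λ ^ 2 * f ^ 2 * i3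
  have N4 : v * γ * Q.cj (v * γ) = ((Z ^ 2 * Λ ^ 5 : ℤ) : 𝓞 K) := by
    rw [map_mul]
    push_cast at nv ⊢
    linear_combination γ * Q.cj γ * nv + (Z : 𝓞 K) * Λ ^ 3 * nγ
  obtain ⟨θ', hθ'⟩ := hADVL K Q (v * γ) Z (Λ ^ 5) hZ ⟨_, Y4⟩ N4
  have yθ' : Q.Y θ' = f * R' := by
    rw [hθ', Q.Y_int_mul] at Y4
    exact mul_left_cancel₀ hZ Y4
  refine ⟨α, γ, u, v, θ, θ', ?_, hv, ?_, ?_, ?_, ?_, yα, yγ, yu, yv, ?_, ?_⟩
  · rw [hΛe]
    exact hu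
  · rw [hΛe]
    linear_combination α * hu + (Λ : 𝓞 K) * hθ
  · show γ ^ 2 * α = (Z : 𝓞 K) ^ 2 * θ'
    linear_combination γ * hv + (Z : 𝓞 K) * hθ'
  · rw [hΛe]
    exact nα
  · rw [hΛe]
    exact nγ
  · rw [hRe]
    exact yθ
  · rw [hRe']
    exact yθ'

end Pool.Agent.T5
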