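import Pool.Agent.helper3.T5.SpecA

set_option autoImplicit false

/-! T5 (MP_16912e_nt): row ALC2, the local condition at a prime dividing `n`. -/

namespace Pool.Agent.T5

open Finset NumberField Pool.Agent.helper3.FT Pool.Agent.helper47.RA

theorem ALC2_div {K : Type} [Field K] [NumberField K] (Q : QF K) (p : ℕ) (x x1 : 𝓞 K) (N : ℤ)
    (h : x * Q.cj x = (N : 𝓞 K)) (hx : x = (p : 𝓞 K) * x1) :
    ∃ N1 : ℤ, x1 * Q.cj x1 = (N1 : 𝓞 K) ∧ N = (p : ℤ) ^ 2 * N1 := by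
  obtain ⟨N1, hN1, -⟩ := Q.exists_norm x1
  refine ⟨N1, hN1, ?_⟩
  apply QF.int_inj (K := K)
  rw [← h, hx, map_mul, map_natCast]
  push_cast
  linear_combination (p : 𝓞 K) ^ 2 * hN1

theorem ALC2 (hARAM : ARAM_stmt) (hAPRM : APRM_stmt) (hASQF : ASQF_stmt) (hAIST : AIST_stmt) :
    ALC2_stmt := by
  intro K _ _ Q a α γ d t p hT hp hpd hpn
  obtain ⟨F, hFa, hFβ, hFγ, hFZ, hFL, hu, hv, hθ, hθ'⟩ := hT.full
  have hpZ : Prime (p : ℤ) := Nat.prime_iff_prime_int.mp hp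
  have hpk : ¬ p ∣ t.1.2 := by
    intro h
    have h1 := Nat.dvd_gcd hpn h
    rw [hT.tt.co] at h1
    exact hp.one_lt.ne' (Nat.dvd_one.1 h1)
  have hpd' : ¬ (p : ℤ) ∣ (d : ℤ) := fun h => hpd (by exact_mod_cast h)
  have hpk' : ¬ (p : ℤ) ∣ (t.1.2 : ℤ) := fun h => hpk (by exact_mod_cast h)
  have hpn' : (p : ℤ) ∣ (t.1.1 : ℤ) := by exact_mod_cast hpn
  have nu := F.nu
  have nv := F.nv
  have nβ := F.nβ
  rw [hFZ, hFL] at nu nv nβ
  have e3 := F.e3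
  rw [hFL] at e3
  obtain ⟨i1, -, i3, -⟩ := hAIST t hT.tt
  have ha0 : a ≠ ⊥ := by
    rintro rfl
    have h1 := F.na
    rw [hFa, Ideal.absNorm_bot] at h1
    exact F.hZ (abs_eq_zero.1 (by exact_mod_cast h1.symm))
  constructor
  · rintro ⟨hZ, hD, hL⟩
    have hZ2 : ¬ (p : ℤ) ^ 2 ∣ t.2.2.2 := by
      intro h
      rw [hT.z] at h
      have h1 : p ^ 2 ∣ Ideal.absNorm a := by exact_mod_cast h
      exact hAPRM K Q a p hp hD ha0 (by rw [← hFa]; exact F.pa) h1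
    obtain ⟨z, hz⟩ := hZ
    have hz' : ¬ (p : ℤ) ∣ z := by
      rintro ⟨z', hz''⟩
      exact hZ2 ⟨z', by rw [hz, hz'']; ring⟩
    -- g
    have hg : ¬ (p : ℤ) ∣ t.2.2.1 := by
      intro hg
      have h1 : (p : ℤ) ∣ Q.Y F.v := by
        rw [hv]
        exact dvd_mul_of_dvd_right hg _
      obtain ⟨v1, hv1⟩ := Q.dvd_of_dvd p hp F.v _ nv h1 (by rw [hz]; exact ⟨z * lam t ^ 3, by ring⟩)
      obtain ⟨N1, -, h2⟩ := ALC2_div Q p F.v v1 _ nv hv1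
      rw [hz] at h2
      have h3 : z * lam t ^ 3 = p * N1 := by
        apply mul_left_cancel₀ hpZ.ne_zero
        linear_combination h2
      have h4 : (p : ℤ) ∣ z * lam t ^ 3 := ⟨N1, h3⟩
      rcases hpZ.dvd_or_dvd h4 with h5 | h5
      · exact hz' h5
      · exact hL (hpZ.dvd_of_dvd_pow h5)
    -- u
    obtain ⟨u1, hu1⟩ := hARAM K Q F.u _ p hp hD nu (by rw [hz]; exact ⟨p * z ^ 3 * lam t, by ring⟩)
    obtain ⟨N1, hN1, h2⟩ := ALC2_div Q p F.u u1 _ nu hu1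
    have h3 : N1 = p * (z ^ 3 * lam t) := by
      rw [hz] at h2
      apply mul_left_cancel₀ (pow_ne_zero 2 hpZ.ne_zero)
      linear_combination -h2
    have h4 : (d : ℤ) * t.2.1 = p * Q.Y u1 := by
      rw [← hu, hu1]
      have h5 := Q.Y_int_mul (p : ℤ) u1
      push_cast at h5
      exact h5
    have hm : (p : ℤ) ∣ t.2.1 := by
      have h5 : (p : ℤ) ∣ (d : ℤ) * t.2.1 := ⟨_, h4⟩
      exact (hpZ.dvd_or_dvd h5).resolve_left hpd'
    refine ⟨hpk, hg, hm, ?_⟩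
    rintro ⟨m', hm'⟩
    have h5 : (p : ℤ) ∣ Q.Y u1 := by
      refine ⟨d * m', ?_⟩
      rw [hm'] at h4
      apply mul_left_cancel₀ hpZ.ne_zero
      linear_combination -h4
    obtain ⟨u2, hu2⟩ := Q.dvd_of_dvd p hp u1 _ hN1 h5 ⟨_, h3⟩
    obtain ⟨N2, -, h6⟩ := ALC2_div Q p u1 u2 _ hN1 hu2
    have h7 : z ^ 3 * lam t = p * N2 := by
      apply mul_left_cancel₀ hpZ.ne_zero
      rw [← h3, h6]
      ring
    have h8 : (p : ℤ) ∣ z ^ 3 * lam t := ⟨N2, h7⟩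
    rcases hpZ.dvd_or_dvd h8 with h9 | h9
    · exact hz' (hpZ.dvd_of_dvd_pow h9)
    · exact hL h9
  · rintro ⟨-, hg, hm, -⟩
    have hZ : (p : ℤ) ∣ t.2.2.2 := by
      have h1 : (p : ℤ) ∣ t.2.2.2 * (t.1.2 : ℤ) ^ 2 := by
        have e : t.2.2.2 * (t.1.2 : ℤ) ^ 2 = lam t * (t.1.1 : ℤ) ^ 2 - t.2.1 * t.2.2.1 := by
          linear_combination -i1
        rw [e]
        apply dvd_sub
        · exact dvd_mul_of_dvd_right (dvd_pow hpn' two_ne_zero) _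
        · exact dvd_mul_of_dvd_left hm _
      rcases hpZ.dvd_or_dvd h1 with h2 | h2
      · exact h2
      · exact absurd (hpZ.dvd_of_dvd_pow h2) hpk'
    have hL : ¬ (p : ℤ) ∣ lam t := by
      intro h
      apply hg
      apply hpZ.dvd_of_dvd_pow (n := 2)
      have e : t.2.2.1 ^ 2 = (t.1.1 : ℤ) * RR' t + lam t * (t.1.2 : ℤ) ^ 2 := by
        linear_combination -i3
      rw [e]
      exact dvd_add (dvd_mul_of_dvd_left hpn' _) (dvd_mul_of_dvd_left h _)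
    refine ⟨hZ, ?_, hL⟩
    by_contra hD
    have h1 : (p : ℤ) ∣ Q.Y F.β := by
      rw [hFβ, hT.n]
      exact dvd_mul_of_dvd_right hpn' _
    obtain ⟨β1, hβ1⟩ := Q.dvd_of_dvd p hp F.β (t.2.2.2 ^ 2 * lam t) (by rw [nβ]; push_cast; ring)
      h1 (dvd_mul_of_dvd_left (dvd_pow hZ two_ne_zero) _)
    have hcop : IsCoprime (p : ℤ) (lam t ^ 2) :=
      (hpZ.irreducible.coprime_iff_not_dvd.2 (fun h => hL (hpZ.dvd_of_dvd_pow h)))
    obtain ⟨x, y, hxy⟩ := hcop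
    have h2 : (p : 𝓞 K) ∣ F.α := by
      have hxy' : (x : 𝓞 K) * p + y * (lam t : 𝓞 K) ^ 2 = 1 := by exact_mod_cast hxy
      refine ⟨x * F.α + y * (p * β1 ^ 2 * Q.cj F.γ), ?_⟩
      have h3 : F.β ^ 2 * Q.cj F.γ = (p : 𝓞 K) * (p * β1 ^ 2 * Q.cj F.γ) := by
        rw [hβ1]; ring
      rw [e3] at h3
      linear_combination (-F.α) * hxy' + (y : 𝓞 K) * h3
    have h3 : Ideal.span {(p : 𝓞 K)} ∣ F.a ^ 5 := by
      rw [← F.iα, Ideal.dvd_span_singleton, Ideal.mem_span_singleton]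
      exact h2
    exact F.pa p hp ((hASQF K Q p 5 hp hD (by norm_num)).2 F.a h3)

end Pool.Agent.T5
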