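import Pool.Agent.helper3.T5.SpecA
import Pool.Agent.helper52.FT.A6a

set_option autoImplicit false

/-! T5 (MP_16912e_nt): row ATPL, the reduced tuple. -/

namespace Pool.Agent.T5

open Finset NumberField Pool.Agent.helper3.FT Pool.Agent.helper47.RA

theorem ATPL_norm_pos {K : Type} [Field K] [NumberField K] (Q : QF K) (hD : Q.D < 0) (x : 𝓞 K)
    (N : ℤ) (h : x * Q.cj x = (N : 𝓞 K)) (hY : 0 < Q.Y x) : 0 < N := by
  obtain ⟨x1, hx⟩ := Q.exists_re x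
  generalize Q.Y x = y at hx hY
  have e1 : N = x1 ^ 2 + Q.t * x1 * y - Q.k * y ^ 2 := by
    rw [hx, Q.norm_form] at h
    exact (QF.int_inj h).symm
  have h2 := Q.t_sq
  have h3 := Q.hk
  have h4 : 4 * N = (2 * x1 + Q.t * y) ^ 2 - Q.D * y ^ 2 := by
    rw [e1, h3]
    linear_combination (-(y ^ 2)) * h2
  have h5 : 0 < -Q.D * y ^ 2 := mul_pos (by linarith) (by positivity)
  nlinarith [sq_nonneg (2 * x1 + Q.t * y)]

theorem ATPL : ATPL_stmt := by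
  intro K _ _ Q hD F hβ hγ
  obtain ⟨d, n, k, m, g, y, y', hpos, hd, h1, h2, h3, h4, h5, h6, -, r1, r2, r3, r4⟩ :=
    F.h52_red hβ.ne'
  have hcop : IsCoprime n k := by
    have hg : 0 < Int.gcd (Q.Y F.β) (Q.Y F.γ) := Int.gcd_pos_of_ne_zero_left _ hβ.ne'
    have h7 := Int.isCoprime_iff_gcd_eq_one.2 (Int.gcd_ediv_gcd_ediv_gcd hg)
    rwa [← hd, h1, h2, Int.mul_ediv_cancel_left _ hpos.ne',
      Int.mul_ediv_cancel_left _ hpos.ne'] at h7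
  clear hd
  have hn : 0 < n := by
    rw [h1] at hβ
    exact (mul_pos_iff_of_pos_left hpos).1 hβ
  have hk : 0 < k := by
    rw [h2] at hγ
    exact (mul_pos_iff_of_pos_left hpos).1 hγ
  -- positivity of Z, Λ
  have p1 : 0 < F.Z ^ 2 * F.Λ :=
    ATPL_norm_pos Q hD F.β _ (by rw [F.nβ]; push_cast; ring) hβ
  have p2 : 0 < F.Z * F.Λ ^ 2 :=
    ATPL_norm_pos Q hD F.γ _ (by rw [F.nγ]; push_cast; ring) hγ
  have hΛ : 0 < F.Λ := by
    by_contra h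
    push Not at h
    nlinarith [sq_nonneg F.Z]
  have hZ : 0 < F.Z := by
    by_contra h
    push Not at h
    nlinarith [sq_nonneg F.Λ]
  obtain ⟨d', rfl⟩ := Int.eq_ofNat_of_zero_le hpos.le
  obtain ⟨n', rfl⟩ := Int.eq_ofNat_of_zero_le hn.le
  obtain ⟨k', rfl⟩ := Int.eq_ofNat_of_zero_le hk.le
  have hn2 : (n' : ℤ) ^ 2 ≠ 0 := pow_ne_zero _ hn.ne'
  have hlam : lam ((n', k'), (m, g, F.Z)) = F.Λ := by
    show (m * g + F.Z * (k' : ℤ) ^ 2) / (n' : ℤ) ^ 2 = F.Λ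
    rw [show m * g + F.Z * (k' : ℤ) ^ 2 = F.Λ * (n' : ℤ) ^ 2 by linear_combination r1]
    exact Int.mul_ediv_cancel _ hn2
  have hR : RR ((n', k'), (m, g, F.Z)) = y := by
    show (F.Z * (n' : ℤ) ^ 2 - m ^ 2) / (k' : ℤ) = y
    rw [show F.Z * (n' : ℤ) ^ 2 - m ^ 2 = y * (k' : ℤ) by linear_combination r2]
    exact Int.mul_ediv_cancel _ hk.ne'
  have hR' : RR' ((n', k'), (m, g, F.Z)) = y' := by
    show (g ^ 2 - lam ((n', k'), (m, g, F.Z)) * (k' : ℤ) ^ 2) / (n' : ℤ) = y'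
    rw [hlam, show g ^ 2 - F.Λ * (k' : ℤ) ^ 2 = y' * (n' : ℤ) by linear_combination -r3]
    exact Int.mul_ediv_cancel _ hn.ne'
  have hdis : dis ((n', k'), (m, g, F.Z)) = Q.D * (d' : ℤ) ^ 2 := by
    show ((F.Z * g - lam ((n', k'), (m, g, F.Z)) * m) ^ 2 -
      4 * F.Z ^ 2 * lam ((n', k'), (m, g, F.Z)) * (k' : ℤ) ^ 2) / ((n' : ℤ) * k') ^ 2 =
        Q.D * (d' : ℤ) ^ 2
    rw [hlam, show (F.Z * g - F.Λ * m) ^ 2 - 4 * F.Z ^ 2 * F.Λ * (k' : ℤ) ^ 2 =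
      (Q.D * (d' : ℤ) ^ 2) * ((n' : ℤ) * k') ^ 2 by linear_combination -r4]
    exact Int.mul_ediv_cancel _ (pow_ne_zero _ (mul_ne_zero hn.ne' hk.ne'))
  have hna : F.Z = (Ideal.absNorm F.a : ℤ) := by rw [F.na, abs_of_pos hZ]
  have hnL : F.Λ = (Ideal.absNorm F.L : ℤ) := by rw [F.nL, abs_of_pos hΛ]
  refine ⟨d', ((n', k'), (m, g, F.Z)), ?_⟩
  refine ⟨⟨F, rfl, rfl, rfl, rfl, hlam.symm, h3, h4, ?_, ?_⟩, ?_, ?_, h1, h2, hna, ?_, hdis⟩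
  · rw [hR]; exact h5
  · rw [hR']; exact h6
  · refine ⟨?_, ?_, ?_, ?_, ?_⟩
    · show 1 ≤ n'
      exact_mod_cast hn
    · show 1 ≤ k'
      exact_mod_cast hk
    · exact Nat.isCoprime_iff_coprime.1 hcop
    · show (n' : ℤ) ^ 3 ∣ F.Z * (k' : ℤ) ^ 4 + m * g * (k' : ℤ) ^ 2 - g ^ 2 * (n' : ℤ) ^ 2
      refine ⟨-y', ?_⟩
      linear_combination (k' : ℤ) ^ 2 * r1 + (n' : ℤ) ^ 2 * r3
    · show (k' : ℤ) ∣ m ^ 2 - F.Z * (n' : ℤ) ^ 2
      refine ⟨-y, ?_⟩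
      linear_combination -r2
  · exact_mod_cast hpos
  · rw [hlam, hnL]
    unfold lamI
    rw [F.iβ, map_mul, map_pow]
    have h0 : 0 < Ideal.absNorm F.a ^ 2 := by
      have : 0 < Ideal.absNorm F.a := by
        have h8 := hZ
        rw [hna] at h8
        exact_mod_cast h8
      positivity
    rw [Nat.mul_div_cancel_left _ h0]

end Pool.Agent.T5
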