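import Pool.Agent.helper26.T5.SpecB

set_option autoImplicit false

/-! T5 (MP_16912e_nt): row LPA, a prime dividing the norm of a primitive ideal. -/

namespace Pool.Agent.helper26.T5

open NumberField Pool.Agent.helper3.FT Pool.Agent.helper47.RA Pool.Agent.T5

theorem lpa : LPA := by
  intro K _ _ Q a p ha h0 hp hd
  apply h96_gcd_q Q p hp a (ha p hp)
  intro htop
  have hc : IsCoprime a (Ideal.span {(p : 𝓞 K)}) := Ideal.isCoprime_iff_sup_eq.2 htop
  have hcb : IsCoprime (Q.bar a) (Ideal.span {(p : 𝓞 K)}) := by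
    apply Ideal.isCoprime_iff_sup_eq.2
    have h1 : Q.bar (a ⊔ Ideal.span {(p : 𝓞 K)}) = ⊤ := by
      rw [htop]
      exact Ideal.map_top Q.cj
    have h2 : Q.bar (a ⊔ Ideal.span {(p : 𝓞 K)}) =
        Q.bar a ⊔ Q.bar (Ideal.span {(p : 𝓞 K)}) := Ideal.map_sup Q.cj _ _
    rw [h2, h96_bar_q] at h1
    exact h1
  have h3 : IsCoprime (a * Q.bar a) (Ideal.span {(p : 𝓞 K)}) := IsCoprime.mul_left hc hcb
  rw [Q.mul_bar] at h3
  have h4 : Ideal.span {((Ideal.absNorm a : ℕ) : 𝓞 K)} ≤ Ideal.span {(p : 𝓞 K)} := by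
    rw [Ideal.span_singleton_le_span_singleton]
    exact Nat.cast_dvd_cast hd
  have h5 := Ideal.isCoprime_iff_sup_eq.1 h3
  rw [sup_eq_right.2 h4] at h5
  have h6 := h96_norm_q Q p
  rw [h5, Ideal.absNorm_top] at h6
  have h7 := hp.one_lt
  nlinarith

end Pool.Agent.helper26.T5
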